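import Pool.Agent.AL.Main

/-!
# The area law for all regions follows from the area law for the dyadic squares

For a translation invariant pure state on the `L × L` torus, `S_Q ≤ c 2^k` for the squares of side
`2^k ≤ L / 2` implies `S_A ≤ 960 c |∂A|` for every region `A`.
-/

namespace Pool.Agent.Results.MP_f207dd_mp.DyadicSquares

open Pool.Agent.AL

/-- Let `ψ` be a unit vector on the `L × L` torus which is translation invariant up to phases, or
the unique ground state of some translation invariant Hamiltonian. If `S_Q ≤ c n` for the squares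
of side `n = 2^k ≤ L / 2`, then `S_A ≤ 960 c |∂A|` for all regions `A`. -/
theorem result (L : ℕ) [NeZero L] (d : ℕ) (ψ : (Tor L → Fin d) → ℂ) (hU : Unitv ψ)
    (hT : TInv ψ ∨ ∃ (Ω : Finset (ℤ × ℤ)) (h : Matrix (Ω → Fin d) (Ω → Fin d) ℂ), Ground Ω h L ψ)
    (c : ℝ) (hc : 0 ≤ c) (h : ∀ k : ℕ, 2 * 2 ^ k ≤ L → ent (Qs L (2 ^ k)) ψ ≤ c * 2 ^ k)
    (A : Finset (Tor L)) : ent A ψ ≤ 960 * c * bdry A := by
  refine shape_state hU ?_ hc h A
  rcases hT with hT | ⟨Ω, h, E, Δ, hΔ, hg⟩
  · exact hT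
  · exact gs_tinv hΔ hg

end Pool.Agent.Results.MP_f207dd_mp.DyadicSquares
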