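import Pool.Agent.Helper62.EFluctProof

/-!
# Exponential concentration of the entanglement Hamiltonian of gapped ground states

For the ground state `ψ` of a translation invariant finite range Hamiltonian on the torus with gap
`Δ` and for every region `A` the variance of `- log ρ_A` in the state `ρ_A` (the capacity of
entanglement) is at most `C |∂A| / Δ`, and `Tr ρ_A exp (θ (- log ρ_A - S_A)) ≤ exp (C θ² |∂A| / Δ)`
for all real `θ` with `C θ² (1 + |∂A| / Δ) ≤ 1`; `C` depends on the interaction only.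
-/

namespace Pool.Agent.Results.MP_f207dd_mp.EntanglementFluctuations

open Pool.Agent.AL
open scoped ComplexOrder

theorem result (d : ℕ) (Ω : Finset (ℤ × ℤ)) (h : Matrix (Ω → Fin d) (Ω → Fin d) ℂ)
    (hh : h.IsHermitian) :
    ∃ C : ℝ, ∀ (L : ℕ) [NeZero L] (ψ : (Tor L → Fin d) → ℂ) (E Δ : ℝ), 0 < Δ →
      GS (ham Ω h L) ψ E Δ → ∀ A : Finset (Tor L),
        ∑ i, (rdm_isHermitian A ψ).eigenvalues i *
          (-Real.log ((rdm_isHermitian A ψ).eigenvalues i) - ent A ψ) ^ 2 ≤ C * bdry A / Δ ∧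
        ∀ θ : ℝ, C * θ ^ 2 * (1 + bdry A / Δ) ≤ 1 →
          ∑ i, (rdm_isHermitian A ψ).eigenvalues i *
            Real.exp (θ * (-Real.log ((rdm_isHermitian A ψ).eigenvalues i) - ent A ψ)) ≤
              Real.exp (C * θ ^ 2 * bdry A / Δ) :=
  Helper62.EFluct.main d Ω h hh

end Pool.Agent.Results.MP_f207dd_mp.EntanglementFluctuations
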