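import Pool.Agent.Helper62.ESpreadProof

/-!
# The approximate Schmidt ranks of gapped ground states

For the ground state `ψ` of a translation invariant finite range Hamiltonian on the torus with gap
`Δ` and every region `A`: every unit vector `φ` which is not orthogonal to `ψ` has Schmidt rank at
least `exp (S_A(ψ) - C (1 + √(|∂A| / Δ)) (1 + log (1 / |⟨φ, ψ⟩|)))`, and for every `δ` in `(0, 1)`
there is a unit vector `φ` with `|⟨φ, ψ⟩|² ≥ 1 - δ` and Schmidt rank at most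
`exp (S_A(ψ) + C (1 + √(|∂A| / Δ)) (1 + log (1 / δ)))`.
-/

namespace Pool.Agent.Results.MP_f207dd_mp.EntanglementSpread

open Pool.Agent.AL
open scoped ComplexOrder

theorem result (d : ℕ) (Ω : Finset (ℤ × ℤ)) (h : Matrix (Ω → Fin d) (Ω → Fin d) ℂ)
    (hh : h.IsHermitian) :
    ∃ C : ℝ, ∀ (L : ℕ) [NeZero L] (ψ : (Tor L → Fin d) → ℂ) (E Δ : ℝ), 0 < Δ →
      GS (ham Ω h L) ψ E Δ → ∀ A : Finset (Tor L),
        (∀ φ : (Tor L → Fin d) → ℂ, Unitv φ → ip φ ψ ≠ 0 →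
          Real.exp (ent A ψ - C * (1 + Real.sqrt (bdry A / Δ)) *
            (1 + Real.log (1 / ‖ip φ ψ‖))) ≤ (mat A φ).rank) ∧
        ∀ δ : ℝ, 0 < δ → δ < 1 → ∃ φ : (Tor L → Fin d) → ℂ, Unitv φ ∧ 1 - δ ≤ ‖ip φ ψ‖ ^ 2 ∧
          ((mat A φ).rank : ℝ) ≤ Real.exp (ent A ψ + C * (1 + Real.sqrt (bdry A / Δ)) *
            (1 + Real.log (1 / δ))) :=
  Helper62.ESpread.main d Ω h hh

end Pool.Agent.Results.MP_f207dd_mp.EntanglementSpread
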