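import Pool.Agent.AL.Main

/-!
# The area law in two dimensions is equivalent to weak low rank overlaps for dyadic squares

For a gapped translation invariant family on the torus: the area law for all regions holds if and
only if, for the squares of side `n = 2^k ≤ L / 2`, the ground state has overlap `≥ exp (- c √n)`
with some vector of Schmidt rank `≤ exp (c n)`.
-/

namespace Pool.Agent.Results.MP_f207dd_mp.LowRankCriterion

open Pool.Agent.AL

theorem result (d : ℕ) (Ω : Finset (ℤ × ℤ)) (h : Matrix (Ω → Fin d) (Ω → Fin d) ℂ)
    (hh : h.IsHermitian) (hg : Gapped Ω h) : AreaLaw Ω h ↔ LowRank Ω h :=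
  areaLaw_iff Ω h hh hg

end Pool.Agent.Results.MP_f207dd_mp.LowRankCriterion
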